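import Pool.Agent.W2helper48.JT.DblG

/-!
# The Sato-Tate law of almost all double covers of projective spaces of even dimension for the class functions of small weight

Let `X` be the double cover `y ^ 2 = F(x_0, …, x_n)` of `P ^ n` over `Q`, `n ≥ 2` even, branched along a smooth hypersurface `F = 0` of even degree
`δ`. Let `V` be the part of `H ^ n(X)(n / 2)` which does not come from `P ^ n`, of weight zero and some dimension `b`. For a prime
`p` of good reduction let `A_p` be the Frobenius on `V`, which gives a conjugacy class of the orthogonal group `O(b)`; for all `j` the number of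
the points of `X` over the field with `q = p ^ j` elements is `1 + q + … + q ^ n + q ^ (n / 2) tr(A_p ^ j)`. The Sato-Tate conjecture says for
a general `X` that the classes `A_p` are equidistributed in `O(b)`. For the Haar measure the traces have the same joint moments
`E(tr(A ^ j_1) … tr(A ^ j_r))` as independent normal variables with the means `1` for even `j` and `0` for odd `j`, and the
variances `j`, if `j_1 + … + j_r ≤ b` (Diaconis and Shahshahani, Diaconis and Evans).

It is proved, unconditionally, that for almost all `F` the means over the primes of all the products `tr(A_p ^ j_1) … tr(A_p ^ j_r)` with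
`j_1 + … + j_r ≤ (δ + 1) / 2` have these values, with an error `Y ^ (1 / 2 + ε / 2)` for the sum over the primes in any interval
below `Y`, with arbitrary bounded weights. Examples are the K3 surfaces of degree `2` (`n = 2`, `δ = 6`, double planes, `b = 21`, all weights
at most `3`), the del Pezzo surfaces of degree `2` (`n = 2`, `δ = 4`; here `V` has a finite monodromy group, the Weyl group of `E_7`, and the
statement concerns the weights at most `2`) and the surfaces of general type `n = 2`, `δ ≥ 8`. Hypersurfaces of even dimension are treated in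
`JointTraces` of this folder.
-/

set_option autoImplicit false

namespace Pool.Agent.W2helper48.Unused.EvenDimDoubleCovers

open Finset MeasureTheory ProbabilityTheory MvPolynomial
open Pool.Agent.Y722.HS (Mon form IsSmooth)
open scoped NNReal

/-- The first nonzero coordinate is `1`; every point of the projective space is represented by exactly one such vector. -/
def Normalized {R : Type} [Zero R] [One R] {n : ℕ} (v : Fin (n + 1) → R) : Prop := ∃ i, v i = 1 ∧ ∀ k < i, v k = 0

/-- The number of the points of the double cover `y ^ 2 = F(x)` of `P ^ n` over the field with `p ^ j` elements (`F` a form of even degree). -/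
noncomputable def points {n : ℕ} (F : MvPolynomial (Fin (n + 1)) ℤ) (p j : ℕ) : ℕ :=
  open scoped Classical in
  if h : p.Prime then
    haveI : Fact p.Prime := ⟨h⟩
    Nat.card {x : (Fin (n + 1) → GaloisField p j) × GaloisField p j // Normalized x.1 ∧ x.2 ^ 2 = aeval x.1 F}
  else 0

/-- The trace of the `j`-th power of the Frobenius at `p` on the part of `H ^ n(X)(n / 2)` which does not come from `P ^ n`, `X` the
double cover, `n` even: the number `t` with `points = 1 + q + … + q ^ n + q ^ (n / 2) t`, `q = p ^ j`. -/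
noncomputable def trace {n : ℕ} (F : MvPolynomial (Fin (n + 1)) ℤ) (p j : ℕ) : ℝ :=
  (points F p j - ∑ i ∈ range (n + 1), ((p : ℝ) ^ j) ^ i) / Real.sqrt p ^ (j * n)

/-- The prime `p` is odd and the hypersurface `F = 0` is smooth over the algebraic closure of the field with `p` elements. -/
def Good {n : ℕ} (F : MvPolynomial (Fin (n + 1)) ℤ) (p : ℕ) : Prop :=
  p ≠ 2 ∧ ∀ _ : Fact p.Prime, IsSmooth (map (algebraMap (ZMod p) (AlgebraicClosure (ZMod p))) (map (Int.castRingHom (ZMod p)) F))

/-- The joint moment of `x_(j_1), …, x_(j_r)`, where `x_0, …, x_D` are independent normal variables, `x_d` with the variance `d` and the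
mean `1` for even `d`, `0` for odd `d`. -/
noncomputable def jointMoment {D r : ℕ} (j : Fin r → Fin (D + 1)) : ℝ :=
  ∫ x : Fin (D + 1) → ℝ, ∏ i, x (j i) ∂(Measure.pi fun d : Fin (D + 1) => gaussianReal (if Even (d : ℕ) then 1 else 0) ((d : ℕ) : ℝ≥0))

open Classical in
/-- The sum over the primes `p` of good reduction with `Y < p ≤ Y'`. -/
noncomputable def primeSum {n : ℕ} (F : MvPolynomial (Fin (n + 1)) ℤ) (Y Y' : ℕ) (g : ℕ → ℝ) : ℝ :=
  ∑ p ∈ (Ioc Y Y').filter fun p => p.Prime ∧ Good F p, g p

/-- All mixed moments of the traces of total weight at most `(δ + 1) / 2` are the expected ones, over all intervals of primes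
between `X₀` and `R`, with the weights `w`. -/
def Typical {n : ℕ} (δ : ℕ) (ε C : ℝ) (w : ℕ → ℝ) (X₀ : ℕ) (R : ℝ) (F : MvPolynomial (Fin (n + 1)) ℤ) : Prop :=
  ∀ Y Y' : ℕ, Y ≤ Y' → X₀ ≤ Y' → (Y' : ℝ) ≤ R → ∀ (r : ℕ) (j : Fin r → Fin (δ + 2)), (∀ i, 1 ≤ (j i : ℕ)) → 2 * ∑ i, (j i : ℕ) ≤ δ + 1 →
    |primeSum F Y Y' fun p => w p * (∏ i, trace F p (j i) - jointMoment j)| ≤ C * (Y' : ℝ) ^ (1 / 2 + ε / 2)

/-- The integer vectors `t` with `N i ≤ t i < N i + L i`. -/
noncomputable def box {κ : Type} [Fintype κ] [DecidableEq κ] (N : κ → ℤ) (L : κ → ℕ) : Finset (κ → ℤ) :=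
  Fintype.piFinset fun i => Ico (N i) (N i + L i)

/-- **The joint law of the traces of all powers of Frobenius for almost all double covers of projective spaces of even dimension.** -/
theorem result (n δ : ℕ) (hn : 2 ≤ n) (hn2 : Even n) (hδ : 1 ≤ δ) (hδ2 : Even δ) (ε : ℝ) (hε : 0 < ε) (hε1 : ε ≤ 1) :
    ∃ κ₀ : ℝ, 0 < κ₀ ∧ ∃ C : ℝ, ∀ w : ℕ → ℝ, (∀ p, |w p| ≤ 1) → ∀ (N : Mon n δ → ℤ) (L : Mon n δ → ℕ) (T : ℝ), 0 < T → (∀ i, T ≤ L i) →
      ∀ X₀ : ℕ, 1 ≤ X₀ →
        ({t ∈ box N L | ¬ Typical δ ε C w X₀ (T ^ κ₀) (form t)} : Set (Mon n δ → ℤ)).ncard ≤ C * (X₀ : ℝ) ^ (-(ε / 2)) * ∏ i, (L i : ℝ) := by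
  classical
  obtain ⟨κ₀, hκ₀, C, hC, h⟩ := W2helper48.JT.final_D n δ (by omega) hδ 1 (by norm_num) ε hε hε1
  refine ⟨κ₀, hκ₀, C, fun w hw N L T hT hTL X₀ hX₀ => ?_⟩
  obtain ⟨E, hE1, hE2, hE3⟩ := h w hw N L T hT hTL X₀ hX₀
  have hsub : ({t ∈ box N L | ¬ Typical δ ε C w X₀ (T ^ κ₀) (form t)} : Set (Mon n δ → ℤ)) ⊆ ↑E := by
    rintro t ⟨ht, hnt⟩
    by_contra hno
    refine hnt fun Y Y' hYY hY hYT r j hj hjD => ?_
    have h1 := hE3 t ht hno Y Y' hYY hY hYT r (fun i => (j i : ℕ)) (fun i => mem_Icc.2 ⟨hj i, by have := (j i).2; omega⟩) hjD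
    have h2 : jointMoment j = 1 ^ r * W2helper48.JT.jm (δ + 1) fun i => (j i : ℕ) := by
      rw [one_pow, one_mul]
      exact W2helper48.JT.pi_moment j hj
    have h3 : (Ioc Y Y').filter (fun p => p.Prime ∧ Good (form t) p) = W2helper48.JT.WW (W2helper48.JT.BadD n δ) Y Y' t := by
      ext p
      unfold W2helper48.JT.WW Q285HS.IV
      rw [mem_filter, mem_filter, mem_filter, and_assoc]
      refine and_congr_right fun _ => and_congr_right fun _ => ?_
      show Good (form t) p ↔ ¬ (p = 2 ∨ ¬ _)
      rw [not_or, not_not]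
      unfold Good
      refine and_congr_right fun _ => forall_congr' fun hF => ?_
      have h1 := W2helper48.JT.form_cast t p
      have h2 : map (algebraMap (ZMod p) (AlgebraicClosure (ZMod p))) (map (Int.castRingHom (ZMod p)) (form t)) =
          map (algebraMap (ZMod p) (AlgebraicClosure (ZMod p))) (form fun m => (t m : ZMod p)) := congrArg _ h1
      exact iff_of_eq (congrArg IsSmooth h2)
    have h4 : primeSum (form t) Y Y' (fun p => w p * (∏ i, trace (form t) p (j i) - jointMoment j)) =
        ∑ p ∈ W2helper48.JT.WW (W2helper48.JT.BadD n δ) Y Y' t,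
          w p * (∏ i, (1 * W2helper48.JT.trD n δ (j i) p (fun y => (t y : ZMod p))) - 1 ^ r * W2helper48.JT.jm (δ + 1) fun i => (j i : ℕ)) := by
      unfold primeSum
      rw [h3]
      refine sum_congr rfl fun p hp => ?_
      have hpW : p.Prime ∧ p ≠ 2 := by
        rw [← h3] at hp
        exact ⟨(mem_filter.1 hp).2.1, (mem_filter.1 hp).2.2.1⟩
      have hpr := hpW.1
      have : Fact p.Prime := ⟨hpr⟩
      have h6 : ∀ i, trace (form t) p (j i) = 1 * W2helper48.JT.trD n δ (j i) p (fun y => (t y : ZMod p)) := by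
        intro i
        have hji : (j i : ℕ) ≠ 0 := by
          have := hj i
          omega
        have h5 : (points (form t) p (j i) : ℝ) = ∑ k ∈ range (n + 1), ((p : ℝ) ^ (j i : ℕ)) ^ k +
            ∑ v ∈ (j i : ℕ).divisors.biUnion fun d => W2helper48.JT.MM n p d, W2helper48.JT.qc (j i : ℕ) (W2helper48.JT.vl (fun ν => (t ν : ZMod p)) v) := by
          unfold points
          rw [dif_pos hpr]
          exact W2helper48.JT.card_D (j i : ℕ) hji t
        rw [W2helper48.JT.trD_eq n δ _ p hpW.2]
        unfold trace W2helper48.JT.TD W2helper48.JT.sD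
        rw [h5]
        ring
      show w p * (∏ i, trace (form t) p (j i) - jointMoment j) = _
      rw [h2, prod_congr rfl fun i _ => h6 i]
    rw [h4]
    exact h1
  have h1 := Set.ncard_le_ncard hsub (Finset.finite_toSet _)
  rw [Set.ncard_coe_finset] at h1
  exact le_trans (by exact_mod_cast h1) hE2

end Pool.Agent.W2helper48.Unused.EvenDimDoubleCovers
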