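import Pool.Agent.W2helper48.JT.Brg

/-!
# The Sato-Tate law of almost all hypersurfaces of even dimension for the class functions of small weight

Let `X` be a smooth hypersurface of degree `δ` in `P ^ n` over `Q`, `n ≥ 3` odd. Let `V` be the primitive part of
`H ^ (n - 1)(X)((n - 1) / 2)`, of weight zero and some dimension `b`, about `δ ^ n`. For a prime `p` of good reduction let `A_p` be the
Frobenius on `V`, which gives a conjugacy class of the orthogonal group `O(b)`; for all `j` the number of the points of `X` over the field
with `q = p ^ j` elements is `1 + q + … + q ^ (n - 1) + q ^ ((n - 1) / 2) tr(A_p ^ j)`. The Sato-Tate conjecture says for a general `X`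
that the classes `A_p` are equidistributed in `O(b)`. The class functions on `O(b)` are generated by the traces `tr(A ^ j)`, and for the Haar
measure the traces have the same joint moments `E(tr(A ^ j_1) … tr(A ^ j_r))` as independent normal variables with the means `1` for
even `j` and `0` for odd `j`, and the variances `j`, if `j_1 + … + j_r ≤ b` (Diaconis and Shahshahani, Diaconis and Evans).

It is proved, unconditionally, that for almost all `X` the means over the primes of all the products `tr(A_p ^ j_1) … tr(A_p ^ j_r)` with
`j_1 + … + j_r ≤ (δ + 1) / 2` have these values, with an error `Y ^ (1 / 2 + ε / 2)` for the sum over the primes in any interval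
below `Y`, of the quality of the Riemann hypothesis, with arbitrary bounded weights (for example, for the primes in arbitrary sets). So
this is the Sato-Tate law for all class functions of weight at most `(δ + 1) / 2`, such as the characters of the irreducible
representations of `O(b)` that belong to partitions of numbers at most `(δ + 1) / 2`. (`RandomHypersurfaces` of this folder is the
case `j_1 = … = j_r = 1`, the functions of the trace of `A_p` alone, where the points over the extensions of `F_p` are not needed.)

Proof. The values of a random form at closed points of total degree at most `δ + 1` are independent: a form over a finite field with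
the value `1` at one of `δ + 1` points and zero at the others is made a form over the prime field by the trace. Therefore the
sums over the closed points of the different degrees are independent up to the order `δ + 1` (weighted by the degrees), and they have
nearly normal moments. The chinese remainder theorem gives the second moments of the sums over primes, and the inequality of Rademacher
and Menshov makes them uniform over the intervals (projects HS of helper285, MM of helper282). The proportion of the forms which are
singular modulo `p` is at most `C / p` (project Y722).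
-/

set_option autoImplicit false

namespace Pool.Agent.W2helper48.Unused.EvenDimJointTraces

open Finset MeasureTheory ProbabilityTheory MvPolynomial
open Pool.Agent.Y722.HS (Mon form IsSmooth)
open scoped NNReal

/-- The first nonzero coordinate is `1`; every point of the projective space is represented by exactly one such vector. -/
def Normalized {R : Type} [Zero R] [One R] {n : ℕ} (v : Fin (n + 1) → R) : Prop := ∃ i, v i = 1 ∧ ∀ k < i, v k = 0

/-- The number of the points of the hypersurface `F = 0` in `P ^ n` over the field with `p ^ j` elements. -/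
noncomputable def points {n : ℕ} (F : MvPolynomial (Fin (n + 1)) ℤ) (p j : ℕ) : ℕ :=
  open scoped Classical in
  if h : p.Prime then
    haveI : Fact p.Prime := ⟨h⟩
    Nat.card {v : Fin (n + 1) → GaloisField p j // Normalized v ∧ aeval v F = 0}
  else 0

/-- The trace of the `j`-th power of the Frobenius at `p` on the primitive part of `H ^ (n - 1)(X)((n - 1) / 2)`, `X` the
hypersurface `F = 0` of even dimension `n - 1`: the number `t` with `points = 1 + q + … + q ^ (n - 1) + q ^ ((n - 1) / 2) t`, `q = p ^ j`. -/
noncomputable def trace {n : ℕ} (F : MvPolynomial (Fin (n + 1)) ℤ) (p j : ℕ) : ℝ :=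
  (points F p j - ∑ i ∈ range n, ((p : ℝ) ^ j) ^ i) / Real.sqrt p ^ (j * (n - 1))

/-- The hypersurface `F = 0` is smooth over the algebraic closure of the field with `p` elements. -/
def Good {n : ℕ} (F : MvPolynomial (Fin (n + 1)) ℤ) (p : ℕ) : Prop :=
  ∀ _ : Fact p.Prime, IsSmooth (map (algebraMap (ZMod p) (AlgebraicClosure (ZMod p))) (map (Int.castRingHom (ZMod p)) F))

/-- The joint moment of `x_(j_1), …, x_(j_r)`, where `x_0, …, x_D` are independent normal variables, `x_d` with the variance `d` and the
mean `1` for even `d`, `0` for odd `d`. -/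
noncomputable def jointMoment {D r : ℕ} (j : Fin r → Fin (D + 1)) : ℝ :=
  ∫ x : Fin (D + 1) → ℝ, ∏ i, x (j i) ∂(Measure.pi fun d : Fin (D + 1) => gaussianReal (if Even (d : ℕ) then 1 else 0) ((d : ℕ) : ℝ≥0))

open Classical in
/-- The sum over the primes `p` of good reduction with `Y < p ≤ Y'`. -/
noncomputable def primeSum {n : ℕ} (F : MvPolynomial (Fin (n + 1)) ℤ) (Y Y' : ℕ) (g : ℕ → ℝ) : ℝ :=
  ∑ p ∈ (Ioc Y Y').filter fun p => p.Prime ∧ Good F p, g p

/-- All mixed moments of the traces of total weight at most `(δ + 1) / 2` are the expected ones, over all intervals of primes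
between `X₀` and `R`, with the weights `w`. -/
def Typical {n : ℕ} (δ : ℕ) (ε C : ℝ) (w : ℕ → ℝ) (X₀ : ℕ) (R : ℝ) (F : MvPolynomial (Fin (n + 1)) ℤ) : Prop :=
  ∀ Y Y' : ℕ, Y ≤ Y' → X₀ ≤ Y' → (Y' : ℝ) ≤ R → ∀ (r : ℕ) (j : Fin r → Fin (δ + 2)), (∀ i, 1 ≤ (j i : ℕ)) → 2 * ∑ i, (j i : ℕ) ≤ δ + 1 →
    |primeSum F Y Y' fun p => w p * (∏ i, trace F p (j i) - jointMoment j)| ≤ C * (Y' : ℝ) ^ (1 / 2 + ε / 2)

/-- The integer vectors `t` with `N i ≤ t i < N i + L i`. -/
noncomputable def box {κ : Type} [Fintype κ] [DecidableEq κ] (N : κ → ℤ) (L : κ → ℕ) : Finset (κ → ℤ) :=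
  Fintype.piFinset fun i => Ico (N i) (N i + L i)

/-- **The joint law of the traces of all powers of Frobenius for almost all hypersurfaces of even dimension.** -/
theorem result (n δ : ℕ) (hn : 3 ≤ n) (hn2 : Odd n) (hδ : 1 ≤ δ) (ε : ℝ) (hε : 0 < ε) (hε1 : ε ≤ 1) :
    ∃ κ₀ : ℝ, 0 < κ₀ ∧ ∃ C : ℝ, ∀ w : ℕ → ℝ, (∀ p, |w p| ≤ 1) → ∀ (N : Mon n δ → ℤ) (L : Mon n δ → ℕ) (T : ℝ), 0 < T → (∀ i, T ≤ L i) →
      ∀ X₀ : ℕ, 1 ≤ X₀ →
        ({t ∈ box N L | ¬ Typical δ ε C w X₀ (T ^ κ₀) (form t)} : Set (Mon n δ → ℤ)).ncard ≤ C * (X₀ : ℝ) ^ (-(ε / 2)) * ∏ i, (L i : ℝ) := by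
  classical
  obtain ⟨m, rfl⟩ : ∃ m, n = m + 1 := ⟨n - 1, by omega⟩
  obtain ⟨κ₀, hκ₀, C, hC, h⟩ := W2helper48.JT.final_H m δ (by omega) hδ 1 (by norm_num) ε hε hε1
  refine ⟨κ₀, hκ₀, C, fun w hw N L T hT hTL X₀ hX₀ => ?_⟩
  obtain ⟨E, hE1, hE2, hE3⟩ := h w hw N L T hT hTL X₀ hX₀
  have hsub : ({t ∈ box N L | ¬ Typical δ ε C w X₀ (T ^ κ₀) (form t)} : Set (Mon (m + 1) δ → ℤ)) ⊆ ↑E := by
    rintro t ⟨ht, hnt⟩
    by_contra hno
    refine hnt fun Y Y' hYY hY hYT r j hj hjD => ?_
    have h1 := hE3 t ht hno Y Y' hYY hY hYT r (fun i => (j i : ℕ)) (fun i => mem_Icc.2 ⟨hj i, by have := (j i).2; omega⟩) hjD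
    have h2 : jointMoment j = 1 ^ r * W2helper48.JT.jm (δ + 1) fun i => (j i : ℕ) := by
      rw [one_pow, one_mul]
      exact W2helper48.JT.pi_moment j hj
    have h3 : (Ioc Y Y').filter (fun p => p.Prime ∧ Good (form t) p) = W2helper48.JT.WW (W2helper48.JT.BadH (m + 1) δ) Y Y' t := by
      ext p
      unfold W2helper48.JT.WW Q285HS.IV
      rw [mem_filter, mem_filter, mem_filter, and_assoc]
      refine and_congr_right fun _ => and_congr_right fun _ => ?_
      show Good (form t) p ↔ ¬ ¬ _
      rw [not_not]
      unfold Good
      refine forall_congr' fun hF => ?_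
      have h1 := W2helper48.JT.form_cast t p
      have h2 : map (algebraMap (ZMod p) (AlgebraicClosure (ZMod p))) (map (Int.castRingHom (ZMod p)) (form t)) =
          map (algebraMap (ZMod p) (AlgebraicClosure (ZMod p))) (form fun m => (t m : ZMod p)) := congrArg _ h1
      exact iff_of_eq (congrArg IsSmooth h2)
    have h4 : primeSum (form t) Y Y' (fun p => w p * (∏ i, trace (form t) p (j i) - jointMoment j)) =
        ∑ p ∈ W2helper48.JT.WW (W2helper48.JT.BadH (m + 1) δ) Y Y' t,
          w p * (∏ i, (1 * W2helper48.JT.trH m δ (j i) p (fun y => (t y : ZMod p))) - 1 ^ r * W2helper48.JT.jm (δ + 1) fun i => (j i : ℕ)) := by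
      unfold primeSum
      rw [h3]
      refine sum_congr rfl fun p hp => ?_
      have hpr : p.Prime := by
        unfold W2helper48.JT.WW Q285HS.IV at hp
        exact (mem_filter.1 (mem_filter.1 hp).1).2
      have : Fact p.Prime := ⟨hpr⟩
      have h6 : ∀ i, trace (form t) p (j i) = 1 * W2helper48.JT.trH m δ (j i) p (fun y => (t y : ZMod p)) := by
        intro i
        have hji : (j i : ℕ) ≠ 0 := by
          have := hj i
          omega
        have h5 : points (form t) p (j i) = W2helper48.JT.ptH (p := p) (j i : ℕ) fun y => (t y : ZMod p) := by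
          unfold points
          rw [dif_pos hpr]
          exact W2helper48.JT.card_H (j i : ℕ) hji t
        rw [W2helper48.JT.trH_eq]
        unfold trace W2helper48.JT.TH W2helper48.JT.sH
        rw [h5, Nat.add_sub_cancel]
        ring
      show w p * (∏ i, trace (form t) p (j i) - jointMoment j) = _
      rw [h2, prod_congr rfl fun i _ => h6 i]
    rw [h4]
    exact h1
  have h1 := Set.ncard_le_ncard hsub (Finset.finite_toSet _)
  rw [Set.ncard_coe_finset] at h1
  exact le_trans (by exact_mod_cast h1) hE2

end Pool.Agent.W2helper48.Unused.EvenDimJointTraces
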