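import Pool.Agent.W2helper48.JT.DblG

/-!
# The Sato-Tate law of the Jacobians of almost all hyperelliptic curves for the class functions of small weight

Let `C : y ^ 2 = F(x_0, x_1)` be a hyperelliptic curve of genus `g` over `Q`, `F` a binary form of degree `2 g + 2` without multiple factors, and
`A = Jac(C)`. For a prime `p` of good reduction let `x_p` be the normalised Frobenius, a conjugacy class of `USp(2 g)`; for all `j` the number of the
points of `C` over the field with `q = p ^ j` elements is `1 + q - q ^ (1 / 2) tr(x_p ^ j)`. For a general curve the Sato-Tate group of `A` is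
`USp(2 g)`. The class functions on `USp(2 g)` are generated by the traces `tr(A ^ j)`, `j ≤ g`, and for the Haar measure the traces have the
same joint moments `E(tr(A ^ j_1) … tr(A ^ j_r))` as independent normal variables with the means `-1` for even `j` and `0` for
odd `j`, and the variances `j`, if `j_1 + … + j_r ≤ 2 g` (Diaconis and Shahshahani, Hughes and Rudnick).

It is proved, unconditionally, that for almost all `F` the means over the primes of all the products `tr(x_p ^ j_1) … tr(x_p ^ j_r)` with
`j_1 + … + j_r ≤ g + 1` have these values, with an error `Y ^ (1 / 2 + ε / 2)` for the sum over the primes in any interval below `Y`, of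
the quality of the Riemann hypothesis, with arbitrary bounded weights. So this is the Sato-Tate law for all class functions of
weight at most `g + 1`, such as the characters of the irreducible representations of `USp(2 g)` that belong to partitions of numbers at
most `g + 1`, in particular for all coefficients of the L-polynomial and their products of total weight at most `g + 1`.

Proof. The values of a random binary form at closed points of total degree at most `2 g + 3` are independent, also at points of higher degree: a
form over a finite field with given values at `2 g + 3` points is made a form over the prime field by the trace. Therefore the sums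
of the quadratic characters over the closed points of the different degrees are independent up to the order `2 g + 3` (weighted by the
degrees), and they have nearly normal moments; the points of degree `j / 2` give the mean. The chinese remainder theorem gives the
second moments of the sums over primes, and the inequality of Rademacher and Menshov makes them uniform over the intervals (projects HS of
helper285, MM of helper282). The proportion of the forms which have a multiple factor modulo `p` is at most `C / p` (project Y722).
For genus `2` and smaller weights compare `Results/MP_6dc561_nt/GenusTwoJointMoments.lean`.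
-/

set_option autoImplicit false

namespace Pool.Agent.W2helper48.Unused.HyperellipticJacobians

open Finset MeasureTheory ProbabilityTheory MvPolynomial
open Pool.Agent.Y722.HS (Mon form IsSmooth)
open scoped NNReal

/-- The first nonzero coordinate is `1`; every point of the projective line is represented by exactly one such vector. -/
def Normalized {R : Type} [Zero R] [One R] (v : Fin 2 → R) : Prop := ∃ i, v i = 1 ∧ ∀ k < i, v k = 0

/-- The number of the points of the curve `y ^ 2 = F(x)` over the field with `p ^ j` elements (`F` a binary form of even degree). -/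
noncomputable def points (F : MvPolynomial (Fin 2) ℤ) (p j : ℕ) : ℕ :=
  open scoped Classical in
  if h : p.Prime then
    haveI : Fact p.Prime := ⟨h⟩
    Nat.card {x : (Fin 2 → GaloisField p j) × GaloisField p j // Normalized x.1 ∧ x.2 ^ 2 = aeval x.1 F}
  else 0

/-- The trace of the `j`-th power of the normalised Frobenius at `p` of the Jacobian: the number `t` with
`points = 1 + q - q ^ (1 / 2) t`, `q = p ^ j`. -/
noncomputable def trace (F : MvPolynomial (Fin 2) ℤ) (p j : ℕ) : ℝ := (1 + (p : ℝ) ^ j - points F p j) / Real.sqrt p ^ j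

/-- The prime `p` is odd and `F` has no multiple factors over the algebraic closure of the field with `p` elements. -/
def Good (F : MvPolynomial (Fin 2) ℤ) (p : ℕ) : Prop :=
  p ≠ 2 ∧ ∀ _ : Fact p.Prime, IsSmooth (map (algebraMap (ZMod p) (AlgebraicClosure (ZMod p))) (map (Int.castRingHom (ZMod p)) F))

/-- The joint moment of `x_(j_1), …, x_(j_r)`, where `x_0, …, x_D` are independent normal variables, `x_d` with the variance `d` and the
mean `-1` for even `d`, `0` for odd `d`. -/
noncomputable def jointMoment {D r : ℕ} (j : Fin r → Fin (D + 1)) : ℝ :=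
  ∫ x : Fin (D + 1) → ℝ, ∏ i, x (j i) ∂(Measure.pi fun d : Fin (D + 1) => gaussianReal (-(if Even (d : ℕ) then 1 else 0)) ((d : ℕ) : ℝ≥0))

open Classical in
/-- The sum over the primes `p` of good reduction with `Y < p ≤ Y'`. -/
noncomputable def primeSum (F : MvPolynomial (Fin 2) ℤ) (Y Y' : ℕ) (g : ℕ → ℝ) : ℝ :=
  ∑ p ∈ (Ioc Y Y').filter fun p => p.Prime ∧ Good F p, g p

/-- All mixed moments of the traces of total weight at most `g + 1` are the expected ones, over all intervals of primes
between `X₀` and `R`, with the weights `w`. -/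
def Typical (g : ℕ) (ε C : ℝ) (w : ℕ → ℝ) (X₀ : ℕ) (R : ℝ) (F : MvPolynomial (Fin 2) ℤ) : Prop :=
  ∀ Y Y' : ℕ, Y ≤ Y' → X₀ ≤ Y' → (Y' : ℝ) ≤ R → ∀ (r : ℕ) (j : Fin r → Fin (g + 2)), (∀ i, 1 ≤ (j i : ℕ)) → ∑ i, (j i : ℕ) ≤ g + 1 →
    |primeSum F Y Y' fun p => w p * (∏ i, trace F p (j i) - jointMoment j)| ≤ C * (Y' : ℝ) ^ (1 / 2 + ε / 2)

/-- The integer vectors `t` with `N i ≤ t i < N i + L i`. -/
noncomputable def box {κ : Type} [Fintype κ] [DecidableEq κ] (N : κ → ℤ) (L : κ → ℕ) : Finset (κ → ℤ) :=
  Fintype.piFinset fun i => Ico (N i) (N i + L i)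

/-- **The joint law of the traces of all powers of Frobenius for the Jacobians of almost all hyperelliptic curves of genus `g`.** -/
theorem result (g : ℕ) (hg : 1 ≤ g) (ε : ℝ) (hε : 0 < ε) (hε1 : ε ≤ 1) :
    ∃ κ₀ : ℝ, 0 < κ₀ ∧ ∃ C : ℝ, ∀ w : ℕ → ℝ, (∀ p, |w p| ≤ 1) → ∀ (N : Mon 1 (2 * g + 2) → ℤ) (L : Mon 1 (2 * g + 2) → ℕ) (T : ℝ), 0 < T →
      (∀ i, T ≤ L i) → ∀ X₀ : ℕ, 1 ≤ X₀ →
        ({t ∈ box N L | ¬ Typical g ε C w X₀ (T ^ κ₀) (form t)} : Set (Mon 1 (2 * g + 2) → ℤ)).ncard ≤
          C * (X₀ : ℝ) ^ (-(ε / 2)) * ∏ i, (L i : ℝ) := by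
  classical
  obtain ⟨κ₀, hκ₀, C, hC, h⟩ := W2helper48.JT.final_D 1 (2 * g + 2) le_rfl (by omega) (-1) (by norm_num) ε hε hε1
  refine ⟨κ₀, hκ₀, C, fun w hw N L T hT hTL X₀ hX₀ => ?_⟩
  obtain ⟨E, hE1, hE2, hE3⟩ := h w hw N L T hT hTL X₀ hX₀
  have hsub : ({t ∈ box N L | ¬ Typical g ε C w X₀ (T ^ κ₀) (form t)} : Set (Mon 1 (2 * g + 2) → ℤ)) ⊆ ↑E := by
    rintro t ⟨ht, hnt⟩
    by_contra hno
    refine hnt fun Y Y' hYY hY hYT r j hj hjD => ?_
    have h1 := hE3 t ht hno Y Y' hYY hY hYT r (fun i => (j i : ℕ)) (fun i => mem_Icc.2 ⟨hj i, by have := (j i).2; omega⟩) (by omega)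
    have h2 : jointMoment j = (-1) ^ r * W2helper48.JT.jm (g + 1) fun i => (j i : ℕ) := W2helper48.JT.pi_moment_neg j hj
    have h2' : W2helper48.JT.jm (2 * g + 2 + 1) (fun i => (j i : ℕ)) = W2helper48.JT.jm (g + 1) fun i => (j i : ℕ) := by
      unfold W2helper48.JT.jm
      symm
      refine prod_subset (fun d hd => ?_) fun d hd hnd => ?_
      · rw [mem_Icc] at hd ⊢
        omega
      · have h7 : W2helper48.JT.cnt (fun i => (j i : ℕ)) d = 0 := by
          unfold W2helper48.JT.cnt
          rw [card_eq_zero, filter_eq_empty_iff]
          intro i _ hi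
          have hi' : (j i : ℕ) = d := hi
          have := (j i).2
          rw [mem_Icc] at hd hnd
          omega
        rw [h7]
        unfold W2helper48.JT.nm
        simp [Q285HS.gm_zero]
    have h3 : (Ioc Y Y').filter (fun p => p.Prime ∧ Good (form t) p) = W2helper48.JT.WW (W2helper48.JT.BadD 1 (2 * g + 2)) Y Y' t := by
      ext p
      unfold W2helper48.JT.WW Q285HS.IV
      rw [mem_filter, mem_filter, mem_filter, and_assoc]
      refine and_congr_right fun _ => and_congr_right fun _ => ?_
      show Good (form t) p ↔ ¬ (p = 2 ∨ ¬ _)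
      rw [not_or, not_not]
      unfold Good
      refine and_congr_right fun _ => forall_congr' fun hF => ?_
      have h1 := W2helper48.JT.form_cast t p
      have h2 : map (algebraMap (ZMod p) (AlgebraicClosure (ZMod p))) (map (Int.castRingHom (ZMod p)) (form t)) =
          map (algebraMap (ZMod p) (AlgebraicClosure (ZMod p))) (form fun m => (t m : ZMod p)) := congrArg _ h1
      exact iff_of_eq (congrArg IsSmooth h2)
    have h4 : primeSum (form t) Y Y' (fun p => w p * (∏ i, trace (form t) p (j i) - jointMoment j)) =
        ∑ p ∈ W2helper48.JT.WW (W2helper48.JT.BadD 1 (2 * g + 2)) Y Y' t,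
          w p * (∏ i, (-1 * W2helper48.JT.trD 1 (2 * g + 2) (j i) p (fun y => (t y : ZMod p))) -
            (-1) ^ r * W2helper48.JT.jm (2 * g + 2 + 1) fun i => (j i : ℕ)) := by
      unfold primeSum
      rw [h3]
      refine sum_congr rfl fun p hp => ?_
      have hpW : p.Prime ∧ p ≠ 2 := by
        rw [← h3] at hp
        exact ⟨(mem_filter.1 hp).2.1, (mem_filter.1 hp).2.2.1⟩
      have hpr := hpW.1
      have : Fact p.Prime := ⟨hpr⟩
      have h6 : ∀ i, trace (form t) p (j i) = -1 * W2helper48.JT.trD 1 (2 * g + 2) (j i) p (fun y => (t y : ZMod p)) := by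
        intro i
        have hji : (j i : ℕ) ≠ 0 := by
          have := hj i
          omega
        have h5 : (points (form t) p (j i) : ℝ) = ∑ k ∈ range (1 + 1), ((p : ℝ) ^ (j i : ℕ)) ^ k +
            ∑ v ∈ (j i : ℕ).divisors.biUnion fun d => W2helper48.JT.MM 1 p d, W2helper48.JT.qc (j i : ℕ) (W2helper48.JT.vl (fun ν => (t ν : ZMod p)) v) := by
          unfold points
          rw [dif_pos hpr]
          exact W2helper48.JT.card_D (j i : ℕ) hji t
        rw [W2helper48.JT.trD_eq 1 (2 * g + 2) _ p hpW.2]
        unfold trace W2helper48.JT.TD W2helper48.JT.sD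
        rw [h5, sum_range_succ, sum_range_one, pow_zero, pow_one, mul_one]
        ring
      show w p * (∏ i, trace (form t) p (j i) - jointMoment j) = _
      rw [h2, h2', prod_congr rfl fun i _ => h6 i]
    rw [h4]
    exact h1
  have h1 := Set.ncard_le_ncard hsub (Finset.finite_toSet _)
  rw [Set.ncard_coe_finset] at h1
  exact le_trans (by exact_mod_cast h1) hE2

end Pool.Agent.W2helper48.Unused.HyperellipticJacobians
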